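import Pool.Agent.X197.NFTri2

set_option autoImplicit false
set_option linter.unusedVariables false

open CategoryTheory Topology Set

universe u

namespace Pool.Agent.Results.MP_2f5a6b_gt.NotFinitelySquareSkeletal

open Pool.Agent.X197.NF

/-- The two-point space. -/
abbrev Two : CompHaus.{u} := CompHaus.of (ULift.{u} Bool)

/-- The one-point space. -/
abbrev One : CompHaus.{u} := CompHaus.of PUnit.{u + 1}

/-- The four-point space. -/
abbrev Four : CompHaus.{u} := CompHaus.of (ULift.{u} Bool × ULift.{u} Bool)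

/-- The projections. -/
def pr1 : Four.{u} ⟶ Two.{u} :=
  CompHausLike.ofHom _ (⟨Prod.fst, continuous_fst⟩ :
    C(ULift.{u} Bool × ULift.{u} Bool, ULift.{u} Bool))
def pr2 : Four.{u} ⟶ Two.{u} :=
  CompHausLike.ofHom _ (⟨Prod.snd, continuous_snd⟩ :
    C(ULift.{u} Bool × ULift.{u} Bool, ULift.{u} Bool))

/-- The constant map. -/
def pt : Two.{u} ⟶ One.{u} :=
  CompHausLike.ofHom _ (⟨fun _ => PUnit.unit, continuous_const⟩ : C(ULift.{u} Bool, PUnit.{u + 1}))

/-- **Negative answer to Q2** (and so to Q1): there are a finitary skeletal normal functor `F` and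
a skeletal square of surjections between finite spaces whose image under `F` is not skeletal. -/
theorem result : ∃ F : CompHaus.{u} ⥤ CompHaus.{u},
    IsNormal F ∧ SkeletalFunctor F ∧ Finitary F ∧
    ∃ (X' Y' X Y : CompHaus.{u}) (f' : X' ⟶ Y') (f : X ⟶ Y) (p : X' ⟶ X) (q : Y' ⟶ Y),
      (Finite X' ∧ Finite Y' ∧ Finite X ∧ Finite Y) ∧
      (Function.Surjective (fn f') ∧ Function.Surjective (fn f) ∧ Function.Surjective (fn p) ∧
        Function.Surjective (fn q)) ∧
      SkeletalSquare f' f p q ∧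
      ¬ SkeletalSquare (F.map f') (F.map f) (F.map p) (F.map q) := by
  refine ⟨Tri, tri_normal, tri_skeletal, tri_finitary, Four, Two, Two, One, pr2, pt, pr1, pt,
    ⟨?_, ?_, ?_, ?_⟩, ⟨?_, ?_, ?_, ?_⟩, ⟨?_, ?_⟩, ?_⟩
  · exact inferInstanceAs (Finite (ULift.{u} Bool × ULift.{u} Bool))
  · exact inferInstanceAs (Finite (ULift.{u} Bool))
  · exact inferInstanceAs (Finite (ULift.{u} Bool))
  · exact inferInstanceAs (Finite PUnit.{u + 1})
  · exact fun b => ⟨(b, b), rfl⟩
  · exact fun b => ⟨ULift.up true, rfl⟩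
  · exact fun b => ⟨(b, b), rfl⟩
  · exact fun b => ⟨ULift.up true, rfl⟩
  · rfl
  · intro x U hU
    have hx : x ∈ U := mem_of_mem_nhds hU
    refine ⟨univ, isOpen_univ, ⟨PUnit.unit, mem_univ _⟩, ?_, ?_⟩
    · rintro ⟨⟩ -
      exact ⟨x, hx, rfl⟩
    · intro y _
      exact ⟨((x, y) : ULift.{u} Bool × ULift.{u} Bool), hx, rfl⟩
  · rintro ⟨-, h⟩
    have hdisc : DiscreteTopology (Tri.{u}.obj Two.{u} : CompHaus.{u}) := by
      have : Finite (Tri.{u}.obj Two.{u} : CompHaus.{u}) :=
        tri_finitary _ (inferInstanceAs (Finite (ULift.{u} Bool)))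
      have hT2 : T2Space (Tri.{u}.obj Two.{u} : CompHaus.{u}) := inferInstance
      have hT1 : T1Space (Tri.{u}.obj Two.{u} : CompHaus.{u}) := T2Space.t1Space
      exact Finite.instDiscreteTopology
    let a : (Tri.{u}.obj Two.{u} : CompHaus.{u}) :=
      mk3 (X := Two) (ULift.up false) (ULift.up true) (ULift.up false) (Or.inl rfl)
    let b : (Tri.{u}.obj Two.{u} : CompHaus.{u}) :=
      mk3 (X := Two) (ULift.up false) (ULift.up true) (ULift.up true) (Or.inr rfl)
    obtain ⟨V, hV, ⟨v, hv⟩, hV1, hV2⟩ := h a {a} (by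
      rw [nhds_discrete]
      exact Filter.mem_pure.mpr rfl)
    have hbV : b ∈ fn (Tri.map pt) ⁻¹' V := by
      have h1 : fn (Tri.map pt) b = v := tri_ext rfl rfl rfl
      show fn (Tri.map pt) b ∈ V
      rw [h1]
      exact hv
    obtain ⟨c, hc, hcb⟩ := hV2 hbV
    have hc' : fn (Tri.map pr1) c = a := hc
    -- the third entry of `c` is the first one
    have h3 : c3 c = c1 c := by
      rcases c3_eq c with h4 | h4
      · exact h4
      · exfalso
        have h5 : fn pr1 (c3 c) = ULift.up false := congrArg c3 hc'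
        have h6 : fn pr1 (c2 c) = ULift.up true := congrArg c2 hc'
        rw [h4, h6] at h5
        exact Bool.noConfusion (congrArg ULift.down h5)
    have h7 : fn pr2 (c3 c) = ULift.up true := congrArg c3 hcb
    have h8 : fn pr2 (c1 c) = ULift.up false := congrArg c1 hcb
    rw [h3, h8] at h7
    exact Bool.noConfusion (congrArg ULift.down h7)

end Pool.Agent.Results.MP_2f5a6b_gt.NotFinitelySquareSkeletal
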